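import Pool.Agent.Lib_helper98.GAF.Final
import Pool.Agent.Lib_helper26.XS.Defs

/-!
# XSA: Gallagher's theorem in a zero-free half-plane (copies of GAF.X4, GAF.X5)
-/

set_option autoImplicit false
set_option linter.unusedSectionVars false

namespace Pool.Agent.GA

open Finset Complex Metric
open scoped ArithmeticFunction.vonMangoldt Classical

theorem zf_re {θ : ℝ} (h : XS.ZF θ) {q : ℕ} [NeZero q] (χ : DirichletCharacter ℂ q) (hχ : χ ≠ 1)
    {ρ : ℂ} (hρ : LF χ ρ = 0) : ρ.re ≤ θ := by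
  by_contra hc
  push Not at hc
  by_cases h1 : ρ = 1
  · subst h1
    exact LF_ne_zero hχ (by norm_num) hρ
  · exact h q χ ρ hc h1 (by rwa [LF_eq] at hρ)

theorem zf_re_one {θ : ℝ} (h : XS.ZF θ) {ρ : ℂ} (hρ : riemannZeta₁ ρ = 0) : ρ.re ≤ θ := by
  by_contra hc
  push Not at hc
  have h1 : ρ ≠ 1 := by
    rintro rfl
    exact x5_ne hρ
  have h2 := h 1 1 ρ hc h1
  apply h2
  have h3 : (1 : DirichletCharacter ℂ 1).LFunction ρ = riemannZeta ρ := LF_one ρ
  rw [h3]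
  have h4 := Z1_eq h1
  rw [hρ] at h4
  rcases mul_eq_zero.1 h4.symm with h5 | h5
  · exact absurd (sub_eq_zero.1 h5) h1
  · exact h5

/-- Gallagher's theorem for prime powers: sum over the nontrivial primitive characters of
conductor at most `D`, windows of any width. -/
theorem gal_SK_zf : ∃ C : ℝ, 1 ≤ C ∧ ∃ A : ℝ, 1 ≤ A ∧
    ∀ θ : ℝ, 0 ≤ θ → θ < 1 → XS.ZF θ →
    ∀ D : ℕ, 4 ≤ D → ∀ (k : ℕ) (M : ℝ), 2 ≤ M → A * Real.log D ≤ M →
    M ^ 2 ≤ k → 4 * k ≤ D ^ 2 * M → ∀ t : (q : ℕ) → DirichletCharacter ℂ q → ℝ,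
    (∀ (q : ℕ) (χ : DirichletCharacter ℂ q), |t q χ| ≤ D / 2) →
    ∑ q ∈ Icc 1 D, ∑ χ ∈ Prm q, ‖SK χ k M (t q χ)‖ ≤
      C * Real.exp (-((1 - θ) / 264 * M)) := by
  obtain ⟨Cd, hCd, hden⟩ := density
  obtain ⟨C₁, hC₁, hone⟩ := x3_one
  refine ⟨2 * Real.exp (2 * Cd) + 1000000 * C₁, by
      have := Real.exp_pos (2 * Cd)
      nlinarith,
    max (8 * Cd + 8) 1500, le_trans (by norm_num) (le_max_right _ _),
    fun θ hθ0 hθ1 hZF D hD k M hM2 hMA hk hk4 t ht => ?_⟩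
  have hD2 : 2 ≤ D := by omega
  have hDR : (4 : ℝ) ≤ D := by exact_mod_cast hD
  set L : ℝ := Real.log D with hL
  have hL0 : 0 < L := Real.log_pos (by linarith)
  set K : ℝ := M / L with hK
  have hKL : K * L = M := by rw [hK]; field_simp
  have hM1500 : 1500 * L ≤ M := by
    have := mul_le_mul_of_nonneg_right (le_max_right (8 * Cd + 8) 1500) hL0.le
    linarith
  have hMCd : 8 * Cd + 8 ≤ K := by
    rw [hK, le_div_iff₀ hL0]
    have := mul_le_mul_of_nonneg_right (le_max_left (8 * Cd + 8) 1500) hL0.le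
    linarith
  have hk0 : (0 : ℝ) < k := by nlinarith
  have hσ1 : k / M ≤ (D / 2 : ℝ) ^ 2 := by
    rw [div_le_iff₀ (by linarith)]; nlinarith
  have hsq : Real.sqrt (k / M) ≤ D / 2 := by
    rw [Real.sqrt_le_left (by linarith)]; exact hσ1
  have hne : ∀ q ∈ Icc 1 D, NeZero q := fun q hq => ⟨by
    have := (Finset.mem_Icc.1 hq).1
    omega⟩
  -- the individual bounds
  set E : ℝ := 1000000 * C₁ * Real.exp (-(M / 132)) / (D : ℝ) ^ 2 with hE
  have hDsq : (0 : ℝ) < (D : ℝ) ^ 2 := by positivity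
  have h1 : ∀ q ∈ Icc 1 D, ∀ χ ∈ Prm q, ‖SK χ k M (t q χ)‖ ≤
      ∑ ρ ∈ zr (LF χ) (1 / 16) D, mlt (LF χ) ρ * Real.exp (-(K * L * (1 - ρ.re) / 4)) + E := by
    intro q hq χ hχ
    have := hne q hq
    obtain ⟨-, hχ1⟩ := z3_Prm hχ
    have h2 := hone q χ hχ1 k M (t q χ) D (by linarith) hk (by
      have := ht q χ
      linarith)
    have h3 := x3_err hC₁ hD2 (by linarith) hM1500 hk hk4 (ht q χ) (q := q)
      (by exact_mod_cast (Finset.mem_Icc.1 hq).1) (by exact_mod_cast (Finset.mem_Icc.1 hq).2)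
    rw [hKL]
    refine h2.trans ?_
    have h4 : 72 * (k + 1) * (k / M) * Real.log (3 * (C₁ * q) *
        (2 * (k / M) + |t q χ| + 4) ^ 2) * Real.exp (-(M / 33)) ≤ E := by
      rw [hE, le_div_iff₀ hDsq]
      linarith
    linarith
  -- the sum of the errors
  have hcard : ∑ q ∈ Icc 1 D, ∑ χ ∈ Prm q, E ≤ 1000000 * C₁ * Real.exp (-(M / 132)) := by
    have hE0 : 0 ≤ E := by positivity
    have h2 : ∑ q ∈ Icc 1 D, ∑ _χ ∈ Prm q, E ≤ ∑ q ∈ Icc 1 D, (D : ℝ) * E := by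
      apply Finset.sum_le_sum
      intro q hq
      have := hne q hq
      rw [Finset.sum_const, nsmul_eq_mul]
      apply mul_le_mul_of_nonneg_right _ hE0
      refine (x3_card (q := q)).trans ?_
      exact_mod_cast (Finset.mem_Icc.1 hq).2
    refine h2.trans ?_
    rw [Finset.sum_const, Nat.card_Icc, nsmul_eq_mul, Nat.add_sub_cancel]
    have h3 : (D : ℝ) * (D * E) = (D : ℝ) ^ 2 * E := by ring
    rw [h3, hE, mul_div_cancel₀ _ hDsq.ne']
  -- the sum over the zeros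
  set c₀ : ℝ := (1 - θ) * L with hc₀
  have hzeros : ∑ q ∈ Icc 1 D, ∑ χ ∈ Prm q, ∑ ρ ∈ zr (LF χ) (1 / 16) D,
      mlt (LF χ) ρ * Real.exp (-(K * L * (1 - ρ.re) / 4)) ≤
      2 * Real.exp (2 * Cd) * Real.exp (-(c₀ * K / 8)) := by
    have h2 := x2_zero_sum ((Icc 1 D).sigma Prm) (fun i => LF i.2) (fun _ => 2)
      (D := D) (L := L) (K := K) (c₀ := c₀) (Cd := Cd) ?_ ?_ hL0 (by linarith) hMCd ?_ ?_
    · rw [Finset.sum_sigma] at h2
      exact h2
    · rintro ⟨q, χ⟩ hi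
      rw [Finset.mem_sigma] at hi
      have := hne q hi.1
      exact LF_diff (z3_Prm hi.2).2
    · rintro ⟨q, χ⟩ hi
      rw [Finset.mem_sigma] at hi
      have := hne q hi.1
      exact LF_ne_zero (z3_Prm hi.2).2 (by norm_num)
    · rintro ⟨q, χ⟩ hi ρ hρ him
      rw [Finset.mem_sigma] at hi
      have := hne q hi.1
      have e1 : 1 - c₀ / L = θ := by
        rw [hc₀]
        field_simp
        ring
      rw [e1]
      exact zf_re hZF χ (z3_Prm hi.2).2 hρ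
    · intro δ hδ hδ1
      rw [Finset.sum_sigma]
      exact hden D hD2 δ hδ hδ1
  calc ∑ q ∈ Icc 1 D, ∑ χ ∈ Prm q, ‖SK χ k M (t q χ)‖ ≤
      ∑ q ∈ Icc 1 D, ∑ χ ∈ Prm q, (∑ ρ ∈ zr (LF χ) (1 / 16) D,
        mlt (LF χ) ρ * Real.exp (-(K * L * (1 - ρ.re) / 4)) + E) :=
        Finset.sum_le_sum fun q hq => Finset.sum_le_sum fun χ hχ => h1 q hq χ hχ
    _ = ∑ q ∈ Icc 1 D, ∑ χ ∈ Prm q, (∑ ρ ∈ zr (LF χ) (1 / 16) D,
        mlt (LF χ) ρ * Real.exp (-(K * L * (1 - ρ.re) / 4))) +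
        ∑ q ∈ Icc 1 D, ∑ χ ∈ Prm q, E := by
        rw [← Finset.sum_add_distrib]
        exact Finset.sum_congr rfl fun q _ => Finset.sum_add_distrib
    _ ≤ 2 * Real.exp (2 * Cd) * Real.exp (-(c₀ * K / 8)) +
        1000000 * C₁ * Real.exp (-(M / 132)) := by linarith
    _ ≤ 2 * Real.exp (2 * Cd) * Real.exp (-((1 - θ) / 264 * M)) +
        1000000 * C₁ * Real.exp (-((1 - θ) / 264 * M)) := by
        have h5 : Real.exp (-(c₀ * K / 8)) ≤ Real.exp (-((1 - θ) / 264 * M)) := by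
          apply Real.exp_le_exp.2
          have h6 : c₀ * K = (1 - θ) * M := by
            rw [hc₀, ← hKL]; ring
          rw [h6]
          have h7 : 0 ≤ (1 - θ) * M := by nlinarith
          linarith
        have h6 : Real.exp (-(M / 132)) ≤ Real.exp (-((1 - θ) / 264 * M)) := by
          apply Real.exp_le_exp.2
          nlinarith
        gcongr
    _ = _ := by ring

/-- Gallagher's theorem for primes: sum over the nontrivial primitive characters of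
conductor at most `D`, windows of any width. -/
theorem gal_SKP_zf : ∃ C : ℝ, 1 ≤ C ∧ ∃ A : ℝ, 1 ≤ A ∧
    ∀ θ : ℝ, 0 ≤ θ → θ < 1 → XS.ZF θ →
    ∀ D : ℕ, 4 ≤ D → ∀ (k : ℕ) (M : ℝ), 2 ≤ M → A * Real.log D ≤ M →
    M ^ 2 ≤ k → 4 * k ≤ D ^ 2 * M → ∀ t : (q : ℕ) → DirichletCharacter ℂ q → ℝ,
    (∀ (q : ℕ) (χ : DirichletCharacter ℂ q), |t q χ| ≤ D / 2) →
    ∑ q ∈ Icc 1 D, ∑ χ ∈ Prm q, ‖SKP χ k M (t q χ)‖ ≤
      C * Real.exp (-((1 - θ) / 264 * M)) := by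
  obtain ⟨C, hC, A, hA, h⟩ := gal_SK_zf
  obtain ⟨C₂, hC₂, hpp⟩ := x3_SK_sub_SKP
  refine ⟨C + C₂, by linarith, max A 32,
    hA.trans (le_max_left _ _), fun θ hθ0 hθ1 hZF D hD k M hM2 hMA hk hk4 t ht => ?_⟩
  have hD2 : 2 ≤ D := by omega
  have hDR : (4 : ℝ) ≤ D := by exact_mod_cast hD
  set L : ℝ := Real.log D with hL
  have hL0 : 0 < L := Real.log_pos (by linarith)
  have hMA1 : A * L ≤ M := (mul_le_mul_of_nonneg_right (le_max_left A 32) hL0.le).trans hMA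
  have hMA2 : 32 * L ≤ M := (mul_le_mul_of_nonneg_right (le_max_right A 32) hL0.le).trans hMA
  have h0 := h θ hθ0 hθ1 hZF D hD k M hM2 hMA1 hk hk4 t ht
  have hk0 : (0 : ℝ) < k := by nlinarith
  have hne : ∀ q ∈ Icc 1 D, NeZero q := fun q hq => ⟨by
    have := (Finset.mem_Icc.1 hq).1
    omega⟩
  set E : ℝ := C₂ * Real.exp (-(M / 8)) / (D : ℝ) ^ 2 with hE
  have hDsq : (0 : ℝ) < (D : ℝ) ^ 2 := by positivity
  have hEle : C₂ * (k / M / Real.sqrt k) * Real.exp (-(M / 4)) ≤ E := by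
    rw [hE, le_div_iff₀ hDsq]
    have h1 : k / M / Real.sqrt k ≤ (D : ℝ) ^ 2 := by
      have h2 : k / M ≤ (D : ℝ) ^ 2 / 4 := by
        rw [div_le_iff₀ (by linarith)]; linarith
      have h3 : 1 ≤ Real.sqrt k := by
        rw [Real.one_le_sqrt]; nlinarith
      refine (div_le_self (by positivity) h3).trans ?_
      linarith
    have h2 : (D : ℝ) ^ 4 * Real.exp (-((1 / 8) * M)) ≤ 1 :=
      x3_pow hD2 rfl (by norm_num) (by push_cast; linarith)
    have h3 : Real.exp (-(M / 4)) = Real.exp (-((1 / 8) * M)) * Real.exp (-(M / 8)) := by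
      rw [← Real.exp_add]; congr 1; ring
    calc C₂ * (k / M / Real.sqrt k) * Real.exp (-(M / 4)) * (D : ℝ) ^ 2 ≤
        C₂ * (D : ℝ) ^ 2 * Real.exp (-(M / 4)) * (D : ℝ) ^ 2 := by gcongr
      _ = C₂ * ((D : ℝ) ^ 4 * Real.exp (-((1 / 8) * M))) * Real.exp (-(M / 8)) := by
          rw [h3]; ring
      _ ≤ C₂ * 1 * Real.exp (-(M / 8)) := by gcongr
      _ = _ := by ring
  have h1 : ∀ q ∈ Icc 1 D, ∀ χ ∈ Prm q, ‖SKP χ k M (t q χ)‖ ≤ ‖SK χ k M (t q χ)‖ + E := by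
    intro q hq χ hχ
    have := hne q hq
    have h2 := hpp q χ k M (t q χ) hM2 hk
    have h3 := norm_sub_norm_le (SKP χ k M (t q χ)) (SK χ k M (t q χ))
    rw [norm_sub_rev] at h3
    linarith
  have hcard : ∑ q ∈ Icc 1 D, ∑ χ ∈ Prm q, E ≤ C₂ * Real.exp (-(M / 8)) := by
    have hE0 : 0 ≤ E := by positivity
    have h2 : ∑ q ∈ Icc 1 D, ∑ _χ ∈ Prm q, E ≤ ∑ q ∈ Icc 1 D, (D : ℝ) * E := by
      apply Finset.sum_le_sum
      intro q hq
      have := hne q hq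
      rw [Finset.sum_const, nsmul_eq_mul]
      apply mul_le_mul_of_nonneg_right _ hE0
      refine (x3_card (q := q)).trans ?_
      exact_mod_cast (Finset.mem_Icc.1 hq).2
    refine h2.trans ?_
    rw [Finset.sum_const, Nat.card_Icc, nsmul_eq_mul, Nat.add_sub_cancel]
    have h3 : (D : ℝ) * (D * E) = (D : ℝ) ^ 2 * E := by ring
    rw [h3, hE, mul_div_cancel₀ _ hDsq.ne']
  calc ∑ q ∈ Icc 1 D, ∑ χ ∈ Prm q, ‖SKP χ k M (t q χ)‖ ≤
      ∑ q ∈ Icc 1 D, ∑ χ ∈ Prm q, (‖SK χ k M (t q χ)‖ + E) :=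
        Finset.sum_le_sum fun q hq => Finset.sum_le_sum fun χ hχ => h1 q hq χ hχ
    _ = ∑ q ∈ Icc 1 D, ∑ χ ∈ Prm q, ‖SK χ k M (t q χ)‖ +
        ∑ q ∈ Icc 1 D, ∑ χ ∈ Prm q, E := by
        rw [← Finset.sum_add_distrib]
        exact Finset.sum_congr rfl fun q _ => Finset.sum_add_distrib
    _ ≤ C * Real.exp (-((1 - θ) / 264 * M)) + C₂ * Real.exp (-(M / 8)) := by linarith
    _ ≤ C * Real.exp (-((1 - θ) / 264 * M)) + C₂ * Real.exp (-((1 - θ) / 264 * M)) := by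
        have h6 : Real.exp (-(M / 8)) ≤ Real.exp (-((1 - θ) / 264 * M)) := by
          apply Real.exp_le_exp.2
          nlinarith
        gcongr
    _ = _ := by ring

/-- primes in the windows: prime number theorem with the zero density estimate for the zeta
function as a hypothesis -/
theorem gal_zeta_zf :
    ∃ C : ℝ, 1 ≤ C ∧ ∃ A : ℝ, 1 ≤ A ∧
    ∀ θ : ℝ, 0 ≤ θ → θ < 1 → XS.ZF θ →
    ∀ D : ℕ, 4 ≤ D → ∀ (k : ℕ) (M : ℝ), 2 ≤ M → A * Real.log D ≤ M →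
    M ^ 2 ≤ k → 4 * k ≤ D ^ 2 * M → ∀ t : ℝ, |t| ≤ D / 2 →
    ‖SKP (1 : DirichletCharacter ℂ 1) k M t -
        ((k / M : ℝ) / ((k / M : ℝ) + t * I) : ℂ) ^ (k + 1)‖ ≤
      C * Real.exp (-((1 - θ) / 264 * M)) := by
  obtain ⟨Cd, hCd, hden⟩ := density_zeta
  obtain ⟨C₂, hC₂, hpp⟩ := x3_SK_sub_SKP
  refine ⟨2 * Real.exp (2 * Cd) + 5000000 + C₂, by
      have := Real.exp_pos (2 * Cd)
      nlinarith,
    max (8 * Cd + 8) 1500, le_trans (by norm_num) (le_max_right _ _),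
    fun θ hθ0 hθ1 hZF D hD k M hM2 hMA hk hk4 t ht => ?_⟩
  have hD2 : 2 ≤ D := by omega
  have hDR : (4 : ℝ) ≤ D := by exact_mod_cast hD
  set L : ℝ := Real.log D with hL
  have hL0 : 0 < L := Real.log_pos (by linarith)
  set K : ℝ := M / L with hK
  have hKL : K * L = M := by rw [hK]; field_simp
  have hM1500 : 1500 * L ≤ M := by
    have := mul_le_mul_of_nonneg_right (le_max_right (8 * Cd + 8) 1500) hL0.le
    linarith
  have hMCd : 8 * Cd + 8 ≤ K := by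
    rw [hK, le_div_iff₀ hL0]
    have := mul_le_mul_of_nonneg_right (le_max_left (8 * Cd + 8) 1500) hL0.le
    linarith
  have hk0 : (0 : ℝ) < k := by nlinarith
  have hσ1 : k / M ≤ (D / 2 : ℝ) ^ 2 := by
    rw [div_le_iff₀ (by linarith)]; nlinarith
  have hsq : Real.sqrt (k / M) ≤ D / 2 := by
    rw [Real.sqrt_le_left (by linarith)]; exact hσ1
  have hDsq : (1 : ℝ) ≤ (D : ℝ) ^ 2 := by nlinarith
  have h2 := x5_one k M t D (by linarith) hk (by linarith)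
  have h3 := x3_err (C := 5) (by norm_num) hD2 (by linarith) hM1500 hk hk4 ht (q := 1) le_rfl
    (by linarith)
  have h3' : 72 * (k + 1) * (k / M) * Real.log (3 * (5 * 1) * (2 * (k / M) + |t| + 4) ^ 2) *
        Real.exp (-(M / 33)) ≤ 5000000 * Real.exp (-(M / 132)) := by
    have h4 : 0 ≤ 72 * (k + 1) * (k / M) * Real.log (3 * (5 * 1) * (2 * (k / M) + |t| + 4) ^ 2) *
        Real.exp (-(M / 33)) := by
      have h5 : 0 ≤ Real.log (3 * (5 * 1) * (2 * (k / M) + |t| + 4) ^ 2) := by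
        apply Real.log_nonneg
        have h6 : 0 ≤ k / M := by positivity
        nlinarith [abs_nonneg t, sq_nonneg (2 * (k / M) + |t| + 4)]
      positivity
    have h5 := mul_le_mul_of_nonneg_right hDsq h4
    linarith
  set c₀ : ℝ := (1 - θ) * L with hc₀
  have e0 : 1 - c₀ / L = θ := by
    rw [hc₀]
    field_simp
    ring
  have hzeros : ∑ ρ ∈ zr riemannZeta₁ (1 / 16) D, mlt riemannZeta₁ ρ *
      Real.exp (-(K * L * (1 - ρ.re) / 4)) ≤
      2 * Real.exp (2 * Cd) * Real.exp (-(c₀ * K / 8)) := by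
    have h2 := x2_zero_sum ({()} : Finset Unit) (fun _ => riemannZeta₁) (fun _ => 1)
      (D := D) (L := L) (K := K) (c₀ := c₀) (Cd := Cd)
      (fun _ _ => differentiable_riemannZeta₁) (fun _ _ => x5_ne) hL0 (by linarith) hMCd
      (fun _ _ ρ hρ him => by
        rw [e0]
        exact zf_re_one hZF hρ)
      (fun δ hδ hδ1 => by
        rw [Finset.sum_singleton]
        exact hden D hD2 δ hδ hδ1)
    rw [Finset.sum_singleton] at h2
    exact h2
  rw [hKL] at hzeros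
  have h4 := hpp 1 (1 : DirichletCharacter ℂ 1) k M t hM2 hk
  have h5 : C₂ * (k / M / Real.sqrt k) * Real.exp (-(M / 4)) ≤ C₂ * Real.exp (-(M / 8)) := by
    have h1 : k / M / Real.sqrt k ≤ (D : ℝ) ^ 2 := by
      have h2 : k / M ≤ (D : ℝ) ^ 2 / 4 := by
        rw [div_le_iff₀ (by linarith)]; linarith
      have h3 : 1 ≤ Real.sqrt k := by
        rw [Real.one_le_sqrt]; nlinarith
      refine (div_le_self (by positivity) h3).trans ?_
      linarith
    have h2 : (D : ℝ) ^ 2 * Real.exp (-((1 / 8) * M)) ≤ 1 :=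
      x3_pow hD2 rfl (by norm_num) (by push_cast; linarith)
    have h3 : Real.exp (-(M / 4)) = Real.exp (-((1 / 8) * M)) * Real.exp (-(M / 8)) := by
      rw [← Real.exp_add]; congr 1; ring
    calc C₂ * (k / M / Real.sqrt k) * Real.exp (-(M / 4)) ≤
        C₂ * (D : ℝ) ^ 2 * Real.exp (-(M / 4)) := by gcongr
      _ = C₂ * ((D : ℝ) ^ 2 * Real.exp (-((1 / 8) * M))) * Real.exp (-(M / 8)) := by
          rw [h3]; ring
      _ ≤ C₂ * 1 * Real.exp (-(M / 8)) := by gcongr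
      _ = _ := by ring
  have e1 : Real.exp (-(c₀ * K / 8)) ≤ Real.exp (-((1 - θ) / 264 * M)) := by
    apply Real.exp_le_exp.2
    have h6 : c₀ * K = (1 - θ) * M := by
      rw [hc₀, ← hKL]; ring
    rw [h6]
    have h7 : 0 ≤ (1 - θ) * M := by nlinarith
    linarith
  have e2 : Real.exp (-(M / 132)) ≤ Real.exp (-((1 - θ) / 264 * M)) := by
    apply Real.exp_le_exp.2
    nlinarith
  have e3 : Real.exp (-(M / 8)) ≤ Real.exp (-((1 - θ) / 264 * M)) := by
    apply Real.exp_le_exp.2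
    nlinarith
  set P : ℂ := ((k / M : ℝ) / ((k / M : ℝ) + t * I) : ℂ) ^ (k + 1) with hP
  have h6 : ‖SKP (1 : DirichletCharacter ℂ 1) k M t - P‖ ≤
      ‖SK (1 : DirichletCharacter ℂ 1) k M t - P‖ +
        ‖SK (1 : DirichletCharacter ℂ 1) k M t - SKP (1 : DirichletCharacter ℂ 1) k M t‖ := by
    have := norm_sub_le (SK (1 : DirichletCharacter ℂ 1) k M t - P)
      (SK (1 : DirichletCharacter ℂ 1) k M t - SKP (1 : DirichletCharacter ℂ 1) k M t)
    simpa using this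
  have hexp2 : 0 < Real.exp (2 * Cd) := Real.exp_pos _
  have f1 := mul_le_mul_of_nonneg_left e1 (by positivity : 0 ≤ 2 * Real.exp (2 * Cd))
  nlinarith

end Pool.Agent.GA
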