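import Pool.Agent.Lib_helper3.FGP.P03
import Pool.Agent.Lib_helper3.FGP.P03b
import Pool.Agent.Lib_helper26.XSA.Gal

/-!
# XSA: the energy of the windows in a zero-free half-plane (copies of FGP.P03, FGP.P03b)
-/

set_option autoImplicit false

namespace Pool.Agent.FGP

open Finset Pool.Agent.Var35 Pool.Agent.Var73 Pool.Agent.PV
open scoped ArithmeticFunction ArithmeticFunction.Moebius

/-- `W03` in a zero-free half-plane -/
def W03z : Prop := ∃ C B : ℝ, 0 < C ∧ 1 ≤ B ∧ ∃ K0 : ℕ, ∀ θ : ℝ, 0 ≤ θ → θ < 1 →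
  XS.ZF θ → ∀ K ≥ K0,
  ∀ N D : ℕ, Rg K N → K ^ 20 ≤ D → (D : ℝ) ^ B ≤ N →
  ∀ n : ℕ, N ≤ n * K ^ 3 → n + Mw N K ≤ N →
  En N K n ≤ C * (Real.exp (-((1 - θ) / 528 * Real.log N)) + 1 / (K : ℝ) ^ 7)

/-- `W03b` in a zero-free half-plane -/
def W03bz : Prop := ∃ C B : ℝ, 0 < C ∧ 1 ≤ B ∧ ∃ K0 : ℕ, ∀ θ : ℝ, 0 ≤ θ → θ < 1 →
  XS.ZF θ → ∀ K ≥ K0,
  ∀ N D : ℕ, Rg K N → K ^ 20 ≤ D → (D : ℝ) ^ B ≤ N →
  EE N K ≤ C * N * (Real.exp (-((1 - θ) / 528 * Real.log N)) + 1 / Real.sqrt K)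

theorem W03z_pr (h1 : W01) (h2 : W02) : W03z := by
  classical
  obtain ⟨C₁, hC₁, A, hA, hgal⟩ := Pool.Agent.GA.gal_SKP_zf
  obtain ⟨C₁', hC₁', A', hA', hgal'⟩ := Pool.Agent.GA.gal_zeta_zf
  obtain ⟨C₂, hC₂, K02, hw2⟩ := h2
  obtain ⟨_, _, K01, hw1⟩ := h1
  obtain ⟨C₆, hC₆, htr⟩ := Pool.Agent.GA.x6_trunc
  obtain ⟨K03, hK03, hnum⟩ := p03_num
  set C₃ : ℝ := 3 * C₂ + 1 + C₆ with hC₃
  refine ⟨2 * C₁ ^ 2 + 2 * C₁' ^ 2 + 4 * C₃ ^ 2, max 1 (max (2 * A) (2 * A')),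
    by positivity, le_max_left _ _, max K03 (max K01 K02), ?_⟩
  intro θ hθ0 hθ1 hZF K hK N D hR hKD hDN n hn hnN
  have hKa : K03 ≤ K := (le_max_left _ _).trans hK
  have hKb : K01 ≤ K := (le_max_left _ _).trans ((le_max_right _ _).trans hK)
  have hKc : K02 ≤ K := (le_max_right _ _).trans ((le_max_right _ _).trans hK)
  obtain ⟨q1, q2, q3, q4, q5⟩ := hnum K hKa N hR
  have h : P03S K N n := ⟨hR, q1, q2, q3, q4, hn, hnN⟩
  have hK10 := h.K0
  have hlog := h.logn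
  have hL := h.hL
  set k := ⌈(n * Real.log n / Hw N K) ^ 2⌉₊ with hk
  set M := Real.log n with hM
  have hM2 : 2 ≤ M := by linarith
  -- D
  have hDK : (K : ℝ) ^ 20 ≤ D := by exact_mod_cast hKD
  have hD10 : (10 : ℝ) ≤ D := by
    refine le_trans ?_ hDK
    calc (10 : ℝ) ≤ K := hK10
      _ = (K : ℝ) ^ 1 := (pow_one _).symm
      _ ≤ (K : ℝ) ^ 20 := pow_le_pow_right₀ (by linarith) (by norm_num)
  have hD4 : 4 ≤ D := by
    have : (4 : ℝ) ≤ D := by linarith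
    exact_mod_cast this
  have hlD : 0 < Real.log D := Real.log_pos (by linarith)
  have hBD : max 1 (max (2 * A) (2 * A')) * Real.log D ≤ Real.log N := by
    rw [← Real.log_rpow (by linarith)]
    exact Real.log_le_log (by positivity) hDN
  have hA1 : A * Real.log D ≤ M := by
    have h3 : 2 * A * Real.log D ≤ Real.log N := le_trans (by
      gcongr
      exact (le_max_left _ _).trans (le_max_right _ _)) hBD
    linarith
  have hA2 : A' * Real.log D ≤ M := by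
    have h3 : 2 * A' * Real.log D ≤ Real.log N := le_trans (by
      gcongr
      exact (le_max_right _ _).trans (le_max_right _ _)) hBD
    linarith
  have hkM : M ^ 2 ≤ (k : ℝ) := h.kM
  have hkD : 4 * (k : ℝ) ≤ (D : ℝ) ^ 2 * M := h.kD D hKD
  have hg := hgal θ hθ0 hθ1 hZF D hD4 k M hM2 hA1 hkM hkD (fun _ _ => 0) (fun _ _ => by
    rw [abs_zero]; positivity)
  have hg' := hgal' θ hθ0 hθ1 hZF D hD4 k M hM2 hA2 hkM hkD 0 (by rw [abs_zero]; positivity)
  have hkp : (0 : ℝ) < k := lt_of_lt_of_le (by positivity) hkM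
  have hone : (((k / M : ℝ) : ℂ) / (((k / M : ℝ) : ℂ) + ((0 : ℝ) : ℂ) * Complex.I)) ^ (k + 1) = 1 := by
    have h3 : (((k / M : ℝ)) : ℂ) ≠ 0 := by
      have : (k / M : ℝ) ≠ 0 := by positivity
      exact_mod_cast this
    rw [Complex.ofReal_zero, zero_mul, add_zero, div_self h3, one_pow]
  rw [hone] at hg'
  -- exponentials
  set E : ℝ := Real.exp (-((1 - θ) / 528 * Real.log N)) with hE
  have hE0 : 0 < E := Real.exp_pos _
  have hE1 : E ≤ 1 := by
    rw [hE, Real.exp_le_one_iff]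
    have : 0 ≤ (1 - θ) / 528 * Real.log N := by
      have h5 : 0 ≤ 1 - θ := by linarith
      have h6 : 0 ≤ Real.log N := by linarith
      positivity
    linarith
  have hEc : Real.exp (-((1 - θ) / 264 * M)) ≤ E := by
    rw [hE]
    apply Real.exp_le_exp.2
    nlinarith
  have hEc' : Real.exp (-((1 - θ) / 264 * M)) ≤ E := hEc
  -- comparison
  set δ : ℝ := C₃ * (Real.log N ^ 5 / (K : ℝ) ^ 5) with hδ
  have hδ0 : 0 ≤ δ := by positivity
  have hcmp : ∀ (q : ℕ) [NeZero q] (ψ : DirichletCharacter ℂ q),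
      ‖TS ψ N K n - Pool.Agent.GA.SKP ψ k M 0‖ ≤ δ := by
    intro q _ ψ
    refine h.cmp hC₂ hC₆ (fun p hp => hw2 K hKc N hR n p hn (by omega) hp) ψ ?_
    refine (htr q ψ k M (p03_D N K n) hM2 h.D3 h.D2 h.Dk).trans ?_
    rw [mul_assoc]
    have h3 := h.tiny
    gcongr
  have hδ2 : δ ^ 2 ≤ C₃ ^ 2 / (K : ℝ) ^ 9 := by
    have h3 : δ ^ 2 = C₃ ^ 2 * (Real.log N ^ 10 / (K : ℝ) ^ 10) := by
      rw [hδ]; ring
    rw [h3]
    have h4 : Real.log N ^ 10 / (K : ℝ) ^ 10 ≤ 1 / (K : ℝ) ^ 9 := by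
      rw [div_le_div_iff₀ (by positivity) (by positivity)]
      have h5 := h.hL10
      calc Real.log N ^ 10 * (K : ℝ) ^ 9 ≤ K * (K : ℝ) ^ 9 := by gcongr
        _ = _ := by ring
    calc C₃ ^ 2 * (Real.log N ^ 10 / (K : ℝ) ^ 10) ≤ C₃ ^ 2 * (1 / (K : ℝ) ^ 9) := by gcongr
      _ = _ := by ring
  -- the twisted part
  have hT : ∑ q ∈ Ioc 1 K, ∑ ψ ∈ Pr q, ‖TS ψ N K n‖ ^ 2 ≤
      2 * C₁ ^ 2 * E + 2 * C₃ ^ 2 / (K : ℝ) ^ 7 := by
    have hKD' : K ≤ D := (Nat.le_self_pow (by norm_num) K).trans hKD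
    have hfg : ∀ q : ℕ, 1 < q → ∀ ψ : DirichletCharacter ℂ q, ‖TS ψ N K n‖ ≤
        ‖Pool.Agent.GA.SKP ψ k M 0‖ + δ := by
      intro q hq ψ
      have : NeZero q := ⟨by omega⟩
      have h3 := hcmp q ψ
      have h5 := norm_sub_norm_le (TS ψ N K n) (Pool.Agent.GA.SKP ψ k M 0)
      linarith
    have h0 := p03_absT hKD' (fun q ψ => ‖TS ψ N K n‖) (fun q ψ => ‖Pool.Agent.GA.SKP ψ k M 0‖)
      (fun _ _ => norm_nonneg _) (fun _ _ => norm_nonneg _) (C₁ * E) δ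
      (hg.trans (mul_le_mul_of_nonneg_left hEc (by linarith))) hfg
    exact h0.trans (p03_fin1 C₁ C₃ E δ K hE0.le hE1 (by linarith) hδ2)
  -- the principal part
  have hP : T0 N K n ^ 2 ≤ 2 * C₁' ^ 2 * E + 2 * C₃ ^ 2 / (K : ℝ) ^ 7 := by
    have h3 := p03_T0 N K n (h.mass (hw1 K hKb N hR).2.1)
    have h4 := hcmp 1 (1 : DirichletCharacter ℂ 1)
    have h5 : |T0 N K n| ≤ δ + C₁' * E := by
      rw [h3]
      have e : TS (1 : DirichletCharacter ℂ 1) N K n - 1 =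
          (TS (1 : DirichletCharacter ℂ 1) N K n - Pool.Agent.GA.SKP (1 : DirichletCharacter ℂ 1) k M 0) +
          (Pool.Agent.GA.SKP (1 : DirichletCharacter ℂ 1) k M 0 - 1) := by ring
      rw [e]
      refine (norm_add_le _ _).trans (add_le_add h4 (hg'.trans ?_))
      gcongr
    exact p03_fin2 C₁' C₃ E δ K _ hE0.le hE1 (by linarith) hδ2 h5
  unfold En
  calc _ ≤ (2 * C₁ ^ 2 * E + 2 * C₃ ^ 2 / (K : ℝ) ^ 7) +
        (2 * C₁' ^ 2 * E + 2 * C₃ ^ 2 / (K : ℝ) ^ 7) := add_le_add hT hP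
    _ = (2 * C₁ ^ 2 + 2 * C₁' ^ 2) * E + 4 * C₃ ^ 2 * (1 / (K : ℝ) ^ 7) := by ring
    _ ≤ _ := by
        have h3 : 0 ≤ C₃ ^ 2 * E := by positivity
        have h4 : 0 ≤ C₁ ^ 2 * (1 / (K : ℝ) ^ 7) := by positivity
        have h5 : 0 ≤ C₁' ^ 2 * (1 / (K : ℝ) ^ 7) := by positivity
        linarith

theorem W03bz_pr (h1 : W01) (h3 : W03z) : W03bz := by
  obtain ⟨C, B, hC, hB, K0, hw⟩ := h3
  obtain ⟨_, _, K01, hw1⟩ := h1
  obtain ⟨K03, hK03, hnum⟩ := p03b_num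
  refine ⟨C + 40, B, by linarith, hB, max K03 (max K01 K0), ?_⟩
  intro θ hθ0 hθ1 hZF K hK N D hR hKD hDN
  have hKa : K03 ≤ K := (le_max_left _ _).trans hK
  have hKb : K01 ≤ K := (le_max_left _ _).trans ((le_max_right _ _).trans hK)
  have hKc : K0 ≤ K := (le_max_right _ _).trans ((le_max_right _ _).trans hK)
  obtain ⟨q1, q2, q3⟩ := hnum K hKa N hR
  obtain ⟨w1, w2, _, _, _⟩ := hw1 K hKb N hR
  have hK10 : (10 : ℝ) ≤ K := by exact_mod_cast hR.hK
  have hN1 : (K : ℝ) ^ 400 ≤ N := by exact_mod_cast hR.hN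
  have hN0 : (0 : ℝ) < N := lt_of_lt_of_le (by positivity) hN1
  have hH0 : 0 < Hw N K := by unfold Hw; positivity
  have hMle : (Mw N K : ℝ) ≤ N / (K : ℝ) ^ 7 := by
    have h4 : (Mw N K : ℝ) ≤ Hw N K * Real.log N := by
      unfold Mw
      exact Nat.floor_le (by positivity)
    refine h4.trans ?_
    unfold Hw
    rw [div_mul_eq_mul_div, div_le_div_iff₀ (by positivity) (by positivity)]
    have h5 : Real.log N ≤ K := by linarith
    calc (N : ℝ) * Real.log N * (K : ℝ) ^ 7 ≤ N * K * (K : ℝ) ^ 7 := by gcongr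
      _ = _ := by ring
  have hMN : Mw N K ≤ N := by
    have h4 : (N : ℝ) / (K : ℝ) ^ 7 ≤ N := div_le_self hN0.le (one_le_pow₀ (by linarith))
    have h5 := hMle.trans h4
    exact_mod_cast h5
  set E : ℝ := Real.exp (-((1 - θ) / 528 * Real.log N)) with hE
  have hE0 : 0 < E := Real.exp_pos _
  set g : ℤ → Prop := fun z => (N : ℤ) ≤ z * (K : ℤ) ^ 3 ∧ z + Mw N K ≤ N with hg
  set I := Icc (1 - (Mw N K : ℤ)) ((N : ℤ) + Mw N K) with hI
  have hgood' : ∑ z ∈ I.filter g, En N K z ≤ N * (C * (E + 1 / (K : ℝ) ^ 7)) := by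
    have h4 : ∀ z ∈ I.filter g, En N K z ≤ C * (E + 1 / (K : ℝ) ^ 7) := by
      intro z hz
      have hz' := (mem_filter.1 hz).2
      have hz0 : 0 ≤ z := by
        by_contra h5
        push Not at h5
        have h6 : z * (K : ℤ) ^ 3 ≤ 0 := mul_nonpos_of_nonpos_of_nonneg h5.le (by positivity)
        have h7 : (0 : ℤ) < N := by exact_mod_cast hN0
        have := hz'.1
        omega
      obtain ⟨n, rfl⟩ := Int.eq_ofNat_of_zero_le hz0
      apply hw θ hθ0 hθ1 hZF K hKc N D hR hKD hDN n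
      · have := hz'.1
        exact_mod_cast this
      · have := hz'.2
        exact_mod_cast this
    have h5 : ((I.filter g).card : ℝ) ≤ N := by
      have h6 : I.filter g ⊆ Icc 1 (N : ℤ) := by
        intro z hz
        have hz' := (mem_filter.1 hz).2
        rw [mem_Icc]
        constructor
        · by_contra h5
          push Not at h5
          have h5' : z ≤ 0 := by omega
          have h6 : z * (K : ℤ) ^ 3 ≤ 0 := mul_nonpos_of_nonpos_of_nonneg h5' (by positivity)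
          have h7 : (0 : ℤ) < N := by exact_mod_cast hN0
          have := hz'.1
          omega
        · have := hz'.2
          omega
      have h7 := card_le_card h6
      rw [Int.card_Icc] at h7
      have h8 : ((N : ℤ) + 1 - 1).toNat = N := by omega
      rw [h8] at h7
      exact_mod_cast h7
    refine (sum_le_sum h4).trans ?_
    rw [sum_const, nsmul_eq_mul]
    have h6 : 0 ≤ C * (E + 1 / (K : ℝ) ^ 7) := by positivity
    gcongr
  have hbad' : ∑ z ∈ I.filter (fun z => ¬ g z), En N K z ≤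
      (N / (K : ℝ) ^ 3 + 3 * Mw N K) * (8 * (K : ℝ) ^ 2 * Real.log N ^ 2) := by
    refine (sum_le_sum fun z _ => p03b_crude (fun m => (w1 m).1) w2 q1 (by
      have := hR.hK; omega) z).trans ?_
    rw [sum_const, nsmul_eq_mul]
    have h4 := p03b_bad N K (by have := hR.hK; omega) hMN
    have h5 : 0 ≤ 8 * (K : ℝ) ^ 2 * Real.log N ^ 2 := by positivity
    exact mul_le_mul_of_nonneg_right h4 h5
  have hsplit : EE N K = ∑ z ∈ I.filter g, En N K z + ∑ z ∈ I.filter (fun z => ¬ g z), En N K z := by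
    unfold EE
    exact (sum_filter_add_sum_filter_not I g _).symm
  rw [hsplit]
  have hs0 : 0 < Real.sqrt K := Real.sqrt_pos.2 (by linarith)
  have hs1 : Real.log N ^ 2 ≤ Real.sqrt K := by
    apply Real.le_sqrt_of_sq_le
    calc (Real.log N ^ 2) ^ 2 = Real.log N ^ 4 := by ring
      _ ≤ (K : ℝ) := q2
  have hs2 : Real.sqrt K * Real.sqrt K = K := Real.mul_self_sqrt (by linarith)
  have b1 : (N / (K : ℝ) ^ 3 + 3 * Mw N K) * (8 * (K : ℝ) ^ 2 * Real.log N ^ 2) ≤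
      32 * N * (1 / Real.sqrt K) := by
    have h4 : (N / (K : ℝ) ^ 3 + 3 * Mw N K) ≤ 4 * (N / (K : ℝ) ^ 3) := by
      have h5 : (N : ℝ) / (K : ℝ) ^ 7 ≤ N / (K : ℝ) ^ 3 := by
        apply div_le_div_of_nonneg_left hN0.le (by positivity)
        exact pow_le_pow_right₀ (by linarith) (by norm_num)
      linarith
    calc _ ≤ 4 * (N / (K : ℝ) ^ 3) * (8 * (K : ℝ) ^ 2 * Real.sqrt K) := by gcongr
      _ = 32 * N * (Real.sqrt K / K) := by field_simp; ring
      _ = 32 * N * (1 / Real.sqrt K) := by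
          congr 1
          rw [div_eq_div_iff (by linarith) hs0.ne', hs2, one_mul]
  have b2 : 1 / (K : ℝ) ^ 7 ≤ 1 / Real.sqrt K := by
    apply one_div_le_one_div_of_le hs0
    have h5 : Real.sqrt K ≤ K := by
      rw [Real.sqrt_le_left (by linarith)]
      nlinarith
    refine h5.trans ?_
    calc (K : ℝ) = (K : ℝ) ^ 1 := (pow_one _).symm
      _ ≤ (K : ℝ) ^ 7 := pow_le_pow_right₀ (by linarith) (by norm_num)
  calc _ ≤ N * (C * (E + 1 / (K : ℝ) ^ 7)) + 32 * N * (1 / Real.sqrt K) :=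
        add_le_add hgood' (hbad'.trans b1)
    _ ≤ N * (C * (E + 1 / Real.sqrt K)) + 32 * N * (1 / Real.sqrt K) := by gcongr
    _ ≤ _ := by
        have h4 : 0 ≤ (N : ℝ) * E := by positivity
        have h5 : 0 ≤ (N : ℝ) * (1 / Real.sqrt K) := by positivity
        nlinarith

end Pool.Agent.FGP
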