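import Pool.Agent.Lib_helper99.FGA.A19E
import Pool.Agent.Lib_helper26.XSA.Win

/-!
# XSA: the main theorem for the primes in a zero-free half-plane (copy of FGA.A19E)
-/

set_option autoImplicit false
set_option exponentiation.threshold 5000

namespace Pool.Agent.FGA

open Finset Pool.Agent.Var35 Pool.Agent.Var73 Pool.Agent.PV Pool.Agent.FGP
open scoped ArithmeticFunction ArithmeticFunction.Moebius

/-- `A19E` in a zero-free half-plane -/
def A19Z : Prop := ∃ C B : ℝ, 0 < C ∧ 1 ≤ B ∧ ∀ θ : ℝ, 0 ≤ θ → θ < 1 → XS.ZF θ →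
  ∃ K0 : ℕ, ∀ K ≥ K0, ∀ N D : ℕ, Rg K N → K ^ 20 ≤ D → (D : ℝ) ^ B ≤ N →
  ∀ Y, RY K N Y → 4 * Y ≤ N → ∀ R : ℕ, R ≤ K → N * Real.log N ^ 7 ≤ (R : ℝ) * Y →
  ∑ Q ∈ MQ Y, |VP (Ps N) Q R - N * (Real.log Q - HC.CQ Q)| ≤
    C * (Real.exp (-((1 - θ) / 1056 * Real.log N)) * Real.log N + ((Y : ℝ) / N) ^ (1 / 4 : ℝ) +
      1 / Real.log N) * N * Y

theorem A19Z_pr (h3b : W03bz) (h7b : W07b) (h10 : W10) (h15 : A15w) (h16 : W16) (h20 : W20)
    (a02 : A02) (a04 : A04) (a06 : A06) (a07 : A07) (a15 : A15E) (a16 : A16) (a17 : A17) :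
    A19Z := by
  obtain ⟨C3, B3, hC3, hB3, K3, H3⟩ := h3b
  obtain ⟨C7b, hC7b, K7b, H7b⟩ := h7b
  obtain ⟨K10, H10⟩ := h10
  obtain ⟨Cw, hCw, K15, H15⟩ := h15
  obtain ⟨C16, hC16, K16, H16⟩ := h16
  obtain ⟨C02, hC02, H02⟩ := a02
  obtain ⟨C04, hC04, K04, H04⟩ := a04
  obtain ⟨C06, hC06, K06, H06⟩ := a06
  obtain ⟨C07, hC07, K07, H07⟩ := a07
  obtain ⟨C15, hC15, H15'⟩ := a15
  obtain ⟨Ck, hCk, Hk⟩ := a16
  obtain ⟨C17, hC17, H17⟩ := a17
  set Cf : ℝ := 2 * (3 * C16 * Real.sqrt C3 + 3 * Cw * Real.sqrt C3 +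
      6 * C02 * Real.sqrt ((1 + 2 * Cw + C16) * (C7b * C3)) + 3 * C02 * (C7b * C3)) +
      8 * C15 * Ck + (128 * C04 + 3 * C07 + 3 * C06 + 3 * Cw + C17) with hCf
  have hCf0 : 0 < Cf := by positivity
  -- threshold for `K`
  obtain ⟨Kc, hKc⟩ := exists_nat_gt ((4 * C3) ^ 2)
  refine ⟨Cf, B3, hCf0, hB3, fun θ hθ0 hθ1 hZF => ?_⟩
  -- threshold for `N`
  obtain ⟨Kd, hKd⟩ := exists_nat_gt (Real.exp (528 * (2 * C3) / (1 - θ)))
  have hw : 0 < 1 - θ := by linarith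
  refine ⟨K3 + K7b + K10 + K15 + K16 + K04 + K06 + K07 + Kc + Kd + 100,
    fun K hK N D hR hKD hDN Y hRY hYN R hRK hRL => ?_⟩
  have hK10 : 10 ≤ K := hR.hK
  have hKN : K ≤ N := by
    have h1 : K ^ 1 ≤ K ^ 400 := Nat.pow_le_pow_right (by omega) (by norm_num)
    rw [pow_one] at h1
    exact h1.trans hR.hN
  have hN100 : 100 ≤ N := by omega
  have hNR : (100 : ℝ) ≤ N := by exact_mod_cast hN100
  have hN0 : (0 : ℝ) < N := by linarith
  have hL0 : 0 < Real.log N := Real.log_pos (by linarith)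
  have hD2 : 2 ≤ D := by
    have h1 : K ^ 1 ≤ K ^ 20 := Nat.pow_le_pow_right (by omega) (by norm_num)
    rw [pow_one] at h1
    omega
  have hDR : (2 : ℝ) ≤ D := by exact_mod_cast hD2
  have hDN3 : (D : ℝ) ^ B3 ≤ N := hDN
  set e0 : ℝ := Real.exp (-((1 - θ) / 528 * Real.log N)) with he0
  have he00 : 0 < e0 := Real.exp_pos _
  have hexp : (1 - θ) / 528 * Real.log N ≥ 2 * C3 := by
    have h1 : Real.exp (528 * (2 * C3) / (1 - θ)) ≤ N := by
      have h2 : (Kd : ℝ) ≤ N := by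
        have : Kd ≤ N := by omega
        exact_mod_cast this
      linarith
    have h3 : 528 * (2 * C3) / (1 - θ) ≤ Real.log N := by
      rwa [Real.le_log_iff_exp_le hN0]
    rw [div_le_iff₀ hw] at h3
    have h4 : (1 - θ) / 528 * Real.log N = Real.log N * (1 - θ) / 528 := by ring
    rw [h4, ge_iff_le, le_div_iff₀ (by norm_num)]
    linarith
  have he0C : C3 * e0 ≤ 1 / 2 := by
    have h2 : e0 ≤ Real.exp (-(2 * C3)) := Real.exp_le_exp.2 (by linarith)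
    have h3 : Real.exp (-(2 * C3)) * Real.exp (2 * C3) = 1 := by
      rw [← Real.exp_add]
      simp
    have h4 : 0 < Real.exp (-(2 * C3)) := Real.exp_pos _
    have h6 := Real.add_one_le_exp (2 * C3)
    have h5 : Real.exp (-(2 * C3)) * (2 * C3) ≤ 1 := by nlinarith
    nlinarith
  have he01 : e0 ≤ 1 := by
    rw [he0]
    apply Real.exp_le_one_iff.2
    have : 0 < (1 - θ) / 528 * Real.log N := by positivity
    linarith
  have hEE3 := H3 θ hθ0 hθ1 hZF K (by omega) N D hR hKD hDN3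
  -- `EE ≤ N`
  have hsK : 4 * C3 ≤ Real.sqrt K := by
    apply Real.le_sqrt_of_sq_le
    have h1 : (Kc : ℝ) ≤ K := by
      have : Kc ≤ K := by omega
      exact_mod_cast this
    linarith
  have hsK0 : 0 < Real.sqrt K := by
    have : (0 : ℝ) < 4 * C3 := by positivity
    linarith
  have hEEN : EE N K ≤ N := by
    refine hEE3.trans ?_
    have h1 : C3 * (1 / Real.sqrt K) ≤ 1 / 4 := by
      rw [mul_one_div, div_le_iff₀ hsK0]
      linarith
    calc C3 * N * (e0 + 1 / Real.sqrt K) = N * (C3 * e0 + C3 * (1 / Real.sqrt K)) := by ring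
      _ ≤ N * 1 := by
          apply mul_le_mul_of_nonneg_left _ hN0.le
          linarith
      _ = N := mul_one _
  obtain ⟨M, hM⟩ : ∃ M, Good (2 * N) M := ⟨_, CSB_good (2 * N)⟩
  have hY1 : 1 ≤ Y := hRY.hY1
  have hR0 : 0 < (R : ℝ) := by
    by_contra hc
    push Not at hc
    have h1 : 0 < (N : ℝ) * Real.log N ^ 7 := by positivity
    have h2 : (R : ℝ) * Y ≤ 0 := mul_nonpos_of_nonpos_of_nonneg hc (Nat.cast_nonneg _)
    linarith
  have hR1 : 1 ≤ R := by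
    have : 0 < R := by exact_mod_cast hR0
    omega
  have hres := a19e_one (M := M) (e0 := e0) hC02 hC3 hC04 hC06 hC07 hC7b hC15 hC16 hC17 hCk hCw
    he00.le he01 hR hRY hM hRL hEE3 hEEN hN100 (H10 K (by omega) N hR) h20
    (H7b K (by omega) N hR M hM) H02 (H04 K (by omega) N hR M hM Y hRY hEEN)
    (fun Q hQ => H06 K (by omega) N hR Q R hQ hRK) (H07 K (by omega) N hR M hM Y hRY)
    (H16 K (by omega) N hR M hM hEEN) (H15 K (by omega) N hR hEEN) ?_ (Hk (4 * Y) (by omega))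
    (H17 Y R hY1 hR1)
  · -- conclusion
    have h1 : Real.sqrt e0 = Real.exp (-((1 - θ) / 1056 * Real.log N)) := by
      rw [he0, ← Real.exp_half]
      congr 1
      ring
    rw [h1] at hres
    exact hres
  · intro Q hQ
    unfold MQ at hQ
    rw [mem_Ioc] at hQ
    refine H15' N K Q (by omega) (by omega) ?_
    calc N ^ 16 ≤ Y ^ 16 * K := hRY.hY
      _ ≤ Q ^ 16 * K := Nat.mul_le_mul_right _ (Nat.pow_le_pow_left hQ.1.le 16)

end Pool.Agent.FGA
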