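import Pool.Agent.Lib_helper99.FGA.A20E
import Pool.Agent.Lib_helper26.XSA.A19

/-!
# XSA: the final estimate in a zero-free half-plane (copy of FGA.A20E)
-/

set_option autoImplicit false

namespace Pool.Agent.FGA

open Finset Pool.Agent.Var35 Pool.Agent.Var73 Pool.Agent.PV Pool.Agent.FGP
open scoped ArithmeticFunction ArithmeticFunction.Moebius
open Filter Topology

/-- `A20E` in a zero-free half-plane: all long intervals of moduli -/
def A20Z : Prop := ∃ B : ℝ, 60 ≤ B ∧ ∀ θ : ℝ, 0 ≤ θ → θ < 1 → XS.ZF θ → ∀ η : ℝ, 0 < η →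
  ∃ X₀ : ℝ, 1 ≤ X₀ ∧ ∀ X Y : ℝ, X₀ ≤ X → X ^ (1 - 1 / B) ≤ Y → X₀ * Y ≤ X →
    ∑ Q ∈ IR Y, |HC.GX X Q - HC.LX X Q (X / Q * Real.log X ^ 8) - X * (Real.log Q - HC.CQ Q)| ≤
      η * X * Y

/-- facts for large `X` -/
theorem a20z_X (θ η A B c T : ℝ) (hθ : θ < 1) (hη : 0 < η) (hA : 0 < A) (hB : 1 ≤ B)
    (hc : 0 < c) : ∃ X₁ : ℝ, ∀ X : ℝ, X₁ ≤ X →
    2 ≤ X ^ (1 / B) ∧ T ≤ X ^ (1 / B) - 1 ∧
    A * (Real.exp (-((1 - θ) / 2112 * Real.log X)) * Real.log X) ≤ η ∧
    A / Real.log X ≤ η ∧ 2 ^ c ≤ X ^ (c / (2 * B)) := by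
  have hB0 : 0 < B := by linarith
  have h1B : 0 < 1 / B := by positivity
  have e1 : ∀ᶠ X : ℝ in atTop, 2 ≤ X ^ (1 / B) := (tendsto_rpow_atTop h1B).eventually_ge_atTop _
  have e2 : ∀ᶠ X : ℝ in atTop, T + 1 ≤ X ^ (1 / B) :=
    (tendsto_rpow_atTop h1B).eventually_ge_atTop _
  set w : ℝ := (1 - θ) / 2112 with hw
  have hw0 : 0 < w := by
    rw [hw]
    linarith
  have e3 : ∀ᶠ X : ℝ in atTop, Real.log X ≤ η / A * X ^ w := by
    have := (isLittleO_log_rpow_atTop hw0).bound (show (0 : ℝ) < η / A by positivity)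
    filter_upwards [this, eventually_ge_atTop (1 : ℝ)] with x hx h1
    rw [Real.norm_of_nonneg (Real.log_nonneg h1), Real.norm_of_nonneg (by positivity)] at hx
    exact hx
  have e4 : ∀ᶠ X : ℝ in atTop, A / η ≤ Real.log X :=
    Real.tendsto_log_atTop.eventually_ge_atTop _
  have e5 : ∀ᶠ X : ℝ in atTop, 2 ^ c ≤ X ^ (c / (2 * B)) :=
    (tendsto_rpow_atTop (by positivity)).eventually_ge_atTop _
  have e6 : ∀ᶠ X : ℝ in atTop, 3 ≤ X := eventually_ge_atTop _
  obtain ⟨X₁, hX₁⟩ := eventually_atTop.1 (e1.and (e2.and (e3.and (e4.and (e5.and e6)))))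
  refine ⟨X₁, fun X hX => ?_⟩
  obtain ⟨a1, a2, a3, a4, a5, a6⟩ := hX₁ X hX
  have hX0 : 0 < X := by linarith
  have hl : 0 < Real.log X := Real.log_pos (by linarith)
  refine ⟨a1, by linarith, ?_, ?_, a5⟩
  · have h1 : Real.exp (-(w * Real.log X)) = (X ^ w)⁻¹ := by
      rw [Real.exp_neg, Real.rpow_def_of_pos hX0, mul_comm]
    rw [h1]
    have h2 : 0 < X ^ w := Real.rpow_pos_of_pos hX0 _
    have h3 : (X ^ w)⁻¹ * Real.log X ≤ η / A := by
      rw [inv_mul_le_iff₀ h2]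
      linarith
    calc A * ((X ^ w)⁻¹ * Real.log X) ≤ A * (η / A) := by gcongr
      _ = η := by field_simp
  · rw [div_le_iff₀ hl]
    rw [div_le_iff₀ hη] at a4
    linarith

set_option maxHeartbeats 4000000 in
theorem A20Z_pr (h18a : A18aE) (h18b : A18bE) (h19 : A19Z) : A20Z := by
  obtain ⟨C₀, B₀, hC₀, hB₀, H19⟩ := h19
  obtain ⟨Ca, hCa0, hCa⟩ := h18a
  obtain ⟨Nb, hNb⟩ := h18b
  set B₁ : ℝ := B₀ + 60 with hB₁
  have hB₁0 : 0 < B₁ := by linarith
  refine ⟨5000 * B₁, by linarith, fun θ hθ0 hθ1 hZF η hη => ?_⟩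
  obtain ⟨K0, hK0⟩ := H19 θ hθ0 hθ1 hZF
  set c : ℝ := 1 / 2500 with hc
  have hcpos : 0 < c := by rw [hc]; norm_num
  obtain ⟨X₁, hX₁⟩ := a20_X (1 / 8) (max Ca (Nb + 1)) (by positivity)
  obtain ⟨D₀, hD₀⟩ := p19_D c (B₀ + 61) 0 X₁ hcpos K0
  obtain ⟨X₂, hX₂⟩ := a20z_X θ (η / 3) (C₀ + Ca + 2 * C₀ + 9) B₁ c (max D₀ (2 ^ B₁)) hθ1 (by positivity)
    (by positivity) (by linarith) hcpos
  set U : ℝ := (6 * C₀ / η) ^ 4 with hU
  refine ⟨1 + |X₁| + |X₂| + (2 * (K0 : ℝ) + 10 + Ca) + U, ?_, fun X Y hX hY hYX => ?_⟩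
  · have := abs_nonneg X₁
    have := abs_nonneg X₂
    have : 0 ≤ U := by positivity
    have : (0 : ℝ) ≤ K0 := Nat.cast_nonneg _
    linarith
  have hU0 : 0 ≤ U := by positivity
  have hK00 : (0 : ℝ) ≤ K0 := Nat.cast_nonneg _
  have hXX : X₁ ≤ X := by
    have := le_abs_self X₁
    have := abs_nonneg X₂
    linarith
  have hXX2 : X₂ ≤ X := by
    have := le_abs_self X₂
    have := abs_nonneg X₁
    linarith
  have hX1 : 1 ≤ X := by
    have := abs_nonneg X₁
    have := abs_nonneg X₂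
    linarith
  obtain ⟨x1, x2, x3, x4, x5⟩ := hX₁ X hXX
  obtain ⟨z1, z2, z3, z4, z5⟩ := hX₂ X hXX2
  have hX0 : 0 < X := by linarith
  have hY0 : 0 < Y := lt_of_lt_of_le (Real.rpow_pos_of_pos hX0 _) hY
  -- the level
  set D : ℕ := ⌊X ^ (1 / B₁)⌋₊ with hDdef
  have hDle : (D : ℝ) ≤ X ^ (1 / B₁) := Nat.floor_le (by positivity)
  have hDge : X ^ (1 / B₁) - 1 ≤ (D : ℝ) := by
    have := Nat.lt_floor_add_one (X ^ (1 / B₁))
    rw [← hDdef] at this
    linarith
  have hDD : D₀ ≤ D := (le_max_left _ _).trans (z2.trans hDge)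
  have hD2 : (2 : ℝ) ^ B₁ ≤ D := (le_max_right _ _).trans (z2.trans hDge)
  obtain ⟨d1, d2, d3, d4, d5, d6⟩ := hD₀ D hDD
  have hD0 : (0 : ℝ) < D := by linarith
  have hXpow : (X ^ (1 / B₁)) ^ B₁ = X := by
    rw [← Real.rpow_mul hX0.le]
    have : 1 / B₁ * B₁ = 1 := by field_simp
    rw [this, Real.rpow_one]
  have hDX : (D : ℝ) ^ (B₀ + 60) ≤ X := by
    calc (D : ℝ) ^ (B₀ + 60) ≤ (X ^ (1 / B₁)) ^ (B₀ + 60) :=
          Real.rpow_le_rpow hD0.le hDle (by linarith)
      _ = X := hXpow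
  have hDhalf : X ^ (1 / B₁) / 2 ≤ (D : ℝ) := by linarith
  have hXD : X ≤ Real.exp ((D : ℝ) ^ c) := by
    refine le_trans ?_ d6
    have h2D : X ^ (1 / B₁) ≤ 2 * (D : ℝ) := by linarith
    calc X = (X ^ (1 / B₁)) ^ B₁ := hXpow.symm
      _ ≤ (2 * (D : ℝ)) ^ B₁ := Real.rpow_le_rpow (by positivity) h2D hB₁0.le
      _ = 2 ^ B₁ * (D : ℝ) ^ B₁ := Real.mul_rpow (by norm_num) hD0.le
      _ ≤ (D : ℝ) * (D : ℝ) ^ B₁ := by
          have := Real.rpow_pos_of_pos hD0 B₁
          gcongr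
      _ = (D : ℝ) ^ (B₀ + 61) := by
          have e61 : (B₀ + 61 : ℝ) = 1 + B₁ := by rw [hB₁]; ring
          rw [e61, Real.rpow_add hD0 1 B₁, Real.rpow_one]
  have hYD : X * (D : ℝ) ^ (-c) ≤ Y := by
    refine le_trans ?_ hY
    have h1 : (D : ℝ) ^ (-c) ≤ (X ^ (1 / B₁) / 2) ^ (-c) := by
      apply Real.rpow_le_rpow_of_nonpos (by positivity) hDhalf (by linarith)
    have h2 : (X ^ (1 / B₁) / 2) ^ (-c) = 2 ^ c * X ^ (-(c / B₁)) := by
      rw [Real.div_rpow (by positivity) (by norm_num), ← Real.rpow_mul hX0.le,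
        Real.rpow_neg (by norm_num : (0 : ℝ) ≤ 2), div_inv_eq_mul, mul_comm]
      congr 2
      field_simp
    have h3 : 1 - 1 / (5000 * B₁) = 1 + (c / (2 * B₁) + -(c / B₁)) := by
      rw [hc]
      field_simp
      ring
    calc X * (D : ℝ) ^ (-c) ≤ X * (2 ^ c * X ^ (-(c / B₁))) := by
          rw [← h2]
          gcongr
      _ ≤ X * (X ^ (c / (2 * B₁)) * X ^ (-(c / B₁))) := by
          have := Real.rpow_pos_of_pos hX0 (-(c / B₁))
          gcongr
      _ = X ^ (1 - 1 / (5000 * B₁)) := by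
          rw [h3, Real.rpow_add hX0, Real.rpow_add hX0, Real.rpow_one]
  have hYX1 : (2 * (K0 : ℝ) + 2) * Y ≤ X := by
    refine le_trans ?_ hYX
    apply mul_le_mul_of_nonneg_right _ hY0.le
    have := abs_nonneg X₁
    have := abs_nonneg X₂
    linarith
  have hYX2 : Ca * Y ≤ X := by
    refine le_trans ?_ hYX
    apply mul_le_mul_of_nonneg_right _ hY0.le
    have := abs_nonneg X₁
    have := abs_nonneg X₂
    linarith
  have hYX3 : 10 * Y ≤ X := by
    refine le_trans ?_ hYX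
    apply mul_le_mul_of_nonneg_right _ hY0.le
    have := abs_nonneg X₁
    have := abs_nonneg X₂
    linarith
  have hYX4 : (1 + U) * Y ≤ X := by
    refine le_trans ?_ hYX
    apply mul_le_mul_of_nonneg_right _ hY0.le
    have := abs_nonneg X₁
    have := abs_nonneg X₂
    linarith
  have h : P19S c B₀ K0 D X Y :=
    ⟨hcpos, le_rfl, hB₀, d1, d4, d5, x1, hDX, hXD, hYD, hYX1⟩
  set N : ℕ := ⌊X⌋₊ with hN
  set Y' : ℕ := ⌊Y⌋₊ with hY'
  set R : ℕ := ⌊X / (4 * Y') * Real.log X ^ 8⌋₊ with hR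
  set K : ℕ := ⌊(D : ℝ) ^ (1 / 20 : ℝ)⌋₊ with hK
  have hYf1 : (Y' : ℝ) ≤ Y := h.Yf1
  have hYf2 : Y / 2 ≤ Y' := h.Yf2
  have hYf0 : (0 : ℝ) < Y' := by linarith
  have hNX : (N : ℝ) ≤ X := h.N1
  have hNX2 : X < N + 1 := h.N2
  have hNX3 : X / 2 ≤ N := h.N3
  have hN0 : (0 : ℝ) < N := by linarith
  have hlX : 0 < Real.log X := by linarith
  have hlN2 : Real.log X / 2 ≤ Real.log (N : ℝ) := h.logN
  have hlN0 : 0 < Real.log (N : ℝ) := by linarith
  -- the three inputs
  have e1 := hCa X Y' ((le_max_left _ _).trans x2) (by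
      have h1 := h.Y1
      linarith) (by
      calc Ca * (Y' : ℝ) ≤ Ca * Y := by gcongr
        _ ≤ X := hYX2)
  have hNNb : Nb ≤ N := by
    have h1 : (Nb : ℝ) + 1 ≤ X := (le_max_right _ _).trans x2
    have h2 : (Nb : ℝ) ≤ N := by linarith
    exact_mod_cast h2
  have h4Y : 4 * Y' ≤ N := by
    have h1 : 4 * (Y' : ℝ) ≤ N := by linarith
    exact_mod_cast h1
  have e3 := hK0 K h.KK0 N D h.rg h.K20 h.DB Y' h.ry h4Y R (A20S.RK h le_rfl)
    (A20S.RL h x4)
  -- one modulus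
  have hpt : ∀ Q ∈ IR Y, |HC.GX X Q - HC.LX X Q (X / Q * Real.log X ^ 8) -
      X * (Real.log Q - HC.CQ Q)| ≤
      |HC.HH X Q (X / Q * Real.log X ^ 8) - (1 / (Q : ℝ)) * ∑ l ∈ (range Q).filter (fun l : ℕ =>
        R < HC.den l Q), HC.Sq HC.Lam N (l / Q)| +
      |VP (Ps N) Q R - N * (Real.log Q - HC.CQ Q)| + 3 * X / Real.log X := by
    intro Q hQ
    obtain ⟨hQ1, hYQ, hQY⟩ := A20S.Qf h hQ
    have hQ0 : (0 : ℝ) < Q := by linarith
    have hQX : (Q : ℝ) ≤ X := by linarith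
    have hD1 : 1 ≤ X / Q * Real.log X ^ 8 := by
      have h1 : 1 ≤ X / Q := by rwa [le_div_iff₀ hQ0, one_mul]
      have h2 : 1 ≤ Real.log X ^ 8 := one_le_pow₀ (by linarith)
      nlinarith
    rw [HC.gx_ident X Q hQ1 _ hD1]
    have hlQ : Real.log Q ≤ Real.log X := Real.log_le_log hQ0 hQX
    have hlX2 : Real.log X * (Real.log X + 3) ≤ X := by
      have h1 : Real.log X * (Real.log X + 3) ≤ Real.sqrt X * Real.log X ^ 12 := by
        have h2 : Real.log X * (Real.log X + 3) ≤ Real.log X ^ 12 := by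
          calc Real.log X * (Real.log X + 3) ≤ Real.log X * (Real.log X + Real.log X) := by
                gcongr
                linarith
            _ = 2 * Real.log X ^ 2 := by ring
            _ ≤ Real.log X ^ 10 * Real.log X ^ 2 := by
                have : (2 : ℝ) ≤ Real.log X ^ 10 := by
                  calc (2 : ℝ) ≤ Real.log X := by linarith
                    _ = Real.log X ^ 1 := (pow_one _).symm
                    _ ≤ Real.log X ^ 10 := pow_le_pow_right₀ (by linarith) (by norm_num)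
                gcongr
            _ = _ := by ring
        have h3 : 1 ≤ Real.sqrt X := by
          rw [Real.one_le_sqrt]
          linarith
        have h4 : 0 ≤ Real.log X ^ 12 := by positivity
        nlinarith
      have h2 : X ^ (59 / 60 : ℝ) ≤ X := by
        calc X ^ (59 / 60 : ℝ) ≤ X ^ (1 : ℝ) :=
              Real.rpow_le_rpow_of_exponent_le (by linarith) (by norm_num)
          _ = X := Real.rpow_one _
      have h3 : 0 ≤ Real.sqrt X * Real.log X ^ 12 := by positivity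
      linarith
    have e4 : |(N : ℝ) * (Real.log Q - HC.CQ Q) - X * (Real.log Q - HC.CQ Q)| ≤
        X / Real.log X := by
      rw [← sub_mul, abs_mul]
      have h1 : |(N : ℝ) - X| ≤ 1 := by
        rw [abs_le]
        constructor <;> linarith
      have h2 := a20_CQ Q hQ1
      calc |(N : ℝ) - X| * |Real.log Q - HC.CQ Q| ≤ 1 * (Real.log Q + 3) := by gcongr
        _ ≤ Real.log X + 3 := by linarith
        _ ≤ X / Real.log X := by
            rw [le_div_iff₀ hlX]
            linarith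
    have hb1 : N ^ 9 ≤ Q ^ 10 := by
      have h1 : (N : ℝ) ^ 9 ≤ (Q : ℝ) ^ 10 := by
        have h2 : X ^ (59 / 60 : ℝ) ≤ Q := h.Y1.trans hYQ.le
        have h3 : (X ^ (59 / 60 : ℝ)) ^ 10 ≤ (Q : ℝ) ^ 10 := by
          have := Real.rpow_pos_of_pos hX0 (59 / 60)
          gcongr
        have h4 : (X ^ (59 / 60 : ℝ)) ^ 10 = X ^ (59 / 6 : ℝ) := by
          rw [← Real.rpow_natCast, ← Real.rpow_mul hX0.le]
          norm_num
        have h5 : X ^ (9 : ℕ) ≤ X ^ (59 / 6 : ℝ) := by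
          rw [← Real.rpow_natCast]
          exact Real.rpow_le_rpow_of_exponent_le (by linarith) (by norm_num)
        calc (N : ℝ) ^ 9 ≤ X ^ 9 := by gcongr
          _ ≤ X ^ (59 / 6 : ℝ) := h5
          _ ≤ _ := by rw [← h4]; exact h3
      exact_mod_cast h1
    have hb2 : Q ≤ 4 * N := by
      have h1 : (Q : ℝ) ≤ 4 * N := by linarith
      exact_mod_cast h1
    have e5 := hNb N hNNb Q R hb1 hb2
    have e6 : (N : ℝ) / Real.log N ≤ 2 * X / Real.log X := by
      rw [div_le_div_iff₀ hlN0 hlX]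
      calc (N : ℝ) * Real.log X ≤ X * (2 * Real.log N) := by
            gcongr
            linarith
        _ = 2 * X * Real.log N := by ring
    set V1 : ℝ := (1 / (Q : ℝ)) * ∑ l ∈ (range Q).filter (fun l : ℕ =>
        R < HC.den l Q), HC.Sq HC.Lam N (l / Q)
    set H1 : ℝ := HC.HH X Q (X / Q * Real.log X ^ 8)
    have h7 : H1 - X * (Real.log Q - HC.CQ Q) = (H1 - V1) + (V1 - VP (Ps N) Q R) +
        (VP (Ps N) Q R - N * (Real.log Q - HC.CQ Q)) +
        ((N : ℝ) * (Real.log Q - HC.CQ Q) - X * (Real.log Q - HC.CQ Q)) := by ring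
    rw [h7]
    refine (abs_add_le _ _).trans ?_
    have h8 := abs_add_le ((H1 - V1) + (V1 - VP (Ps N) Q R))
      (VP (Ps N) Q R - N * (Real.log Q - HC.CQ Q))
    have h9 := abs_add_le (H1 - V1) (V1 - VP (Ps N) Q R)
    have h10 : 3 * X / Real.log X = 2 * X / Real.log X + X / Real.log X := by ring
    linarith
  have hcard : ((IR Y).card : ℝ) ≤ 3 * Y := by
    have h1 : ((IR Y).card : ℝ) ≤ ((MQ Y').card : ℝ) := by
      exact_mod_cast card_le_card (A20S.sub h)
    rw [a01_card] at h1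
    linarith
  have s1 : ∑ Q ∈ IR Y, |HC.HH X Q (X / Q * Real.log X ^ 8) - (1 / (Q : ℝ)) *
      ∑ l ∈ (range Q).filter (fun l : ℕ => R < HC.den l Q), HC.Sq HC.Lam N (l / Q)| ≤
      Ca * (1 / Real.log X) * X * Y := by
    refine (sum_le_sum_of_subset_of_nonneg (A20S.sub h) fun _ _ _ => abs_nonneg _).trans ?_
    refine e1.trans ?_
    have : Ca * X * (Y' : ℝ) / Real.log X ≤ Ca * X * Y / Real.log X := by gcongr
    refine this.trans (le_of_eq ?_)
    ring
  set u : ℝ := (Y / X) ^ (1 / 4 : ℝ) with hu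
  have hu0 : 0 ≤ u := by positivity
  have s2 : ∑ Q ∈ IR Y, |VP (Ps N) Q R - N * (Real.log Q - HC.CQ Q)| ≤
      C₀ * (Real.exp (-((1 - θ) / 2112 * Real.log X)) * Real.log X + 2 * u +
        2 * (1 / Real.log X)) * X * Y := by
    refine (sum_le_sum_of_subset_of_nonneg (A20S.sub h) fun _ _ _ => abs_nonneg _).trans ?_
    refine e3.trans ?_
    have h1 : Real.exp (-((1 - θ) / 1056 * Real.log N)) ≤
        Real.exp (-((1 - θ) / 2112 * Real.log X)) := by
      apply Real.exp_le_exp.2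
      apply neg_le_neg
      calc (1 - θ) / 2112 * Real.log X = (1 - θ) / 1056 * (Real.log X / 2) := by ring
        _ ≤ (1 - θ) / 1056 * Real.log N := by
            have hw : 0 ≤ (1 - θ) / 1056 := by linarith
            exact mul_le_mul_of_nonneg_left hlN2 hw
    have h2 : Real.log (N : ℝ) ≤ Real.log X := Real.log_le_log hN0 hNX
    have h5 : ((Y' : ℝ) / N) ^ (1 / 4 : ℝ) ≤ 2 * u := by
      have h51 : ((Y' : ℝ) / N) ^ (1 / 4 : ℝ) ≤ (16 * (Y / X)) ^ (1 / 4 : ℝ) := by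
        apply Real.rpow_le_rpow (by positivity) _ (by norm_num)
        rw [mul_div_assoc', div_le_div_iff₀ hN0 hX0]
        calc (Y' : ℝ) * X ≤ Y * (16 * N) := by
              gcongr
              linarith
          _ = 16 * Y * N := by ring
      refine h51.trans (le_of_eq ?_)
      rw [Real.mul_rpow (by norm_num) (by positivity), hu]
      congr 1
      rw [show (16 : ℝ) = 2 ^ (4 : ℕ) by norm_num, ← Real.rpow_natCast, ← Real.rpow_mul (by norm_num)]
      norm_num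
    have h6 : 1 / Real.log (N : ℝ) ≤ 2 * (1 / Real.log X) := by
      rw [mul_one_div, div_le_div_iff₀ hlN0 hlX]
      linarith
    gcongr
  set E1 : ℝ := Real.exp (-((1 - θ) / 2112 * Real.log X)) * Real.log X with hE1
  have hE10 : 0 ≤ E1 := by positivity
  have hl0 : 0 ≤ 1 / Real.log X := by positivity
  calc ∑ Q ∈ IR Y, |HC.GX X Q - HC.LX X Q (X / Q * Real.log X ^ 8) -
      X * (Real.log Q - HC.CQ Q)| ≤ ∑ Q ∈ IR Y, (|HC.HH X Q (X / Q * Real.log X ^ 8) -
        (1 / (Q : ℝ)) * ∑ l ∈ (range Q).filter (fun l : ℕ =>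
        R < HC.den l Q), HC.Sq HC.Lam N (l / Q)| +
      |VP (Ps N) Q R - N * (Real.log Q - HC.CQ Q)| + 3 * X / Real.log X) := sum_le_sum hpt
    _ ≤ Ca * (1 / Real.log X) * X * Y + C₀ * (E1 + 2 * u + 2 * (1 / Real.log X)) * X * Y +
        3 * Y * (3 * X / Real.log X) := by
        rw [sum_add_distrib, sum_add_distrib, sum_const, nsmul_eq_mul]
        have : ((IR Y).card : ℝ) * (3 * X / Real.log X) ≤ 3 * Y * (3 * X / Real.log X) := by
          gcongr
        linarith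
    _ = (C₀ * E1 + 2 * C₀ * u + (Ca + 2 * C₀ + 9) * (1 / Real.log X)) * X * Y := by ring
    _ ≤ η * X * Y := by
        have g1 : C₀ * E1 ≤ η / 3 := by
          refine le_trans ?_ z3
          exact mul_le_mul_of_nonneg_right (by linarith) hE10
        have g3 : (Ca + 2 * C₀ + 9) * (1 / Real.log X) ≤ η / 3 := by
          refine le_trans ?_ z4
          rw [mul_one_div]
          apply div_le_div_of_nonneg_right _ hlX.le
          linarith
        have g2 : 2 * C₀ * u ≤ η / 3 := by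
          by_cases hU1 : U = 0
          · exfalso
            have : 0 < U := by positivity
            linarith
          have hU2 : 0 < U := lt_of_le_of_ne hU0 (Ne.symm hU1)
          have h1 : Y / X ≤ 1 / U := by
            rw [div_le_div_iff₀ hX0 hU2]
            linarith [mul_nonneg hU0 hY0.le]
          have h2 : u ≤ (1 / U) ^ (1 / 4 : ℝ) := Real.rpow_le_rpow (by positivity) h1 (by norm_num)
          have h3 : (1 / U) ^ (1 / 4 : ℝ) = η / (6 * C₀) := by
            rw [hU, Real.div_rpow (by norm_num) (by positivity), Real.one_rpow,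
              ← Real.rpow_natCast, ← Real.rpow_mul (by positivity)]
            norm_num
          rw [h3] at h2
          calc 2 * C₀ * u ≤ 2 * C₀ * (η / (6 * C₀)) := by gcongr
            _ = η / 3 := by
                field_simp
                ring
        gcongr
        linarith

end Pool.Agent.FGA
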