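import Pool.Agent.Lib_helper99.FGA.FinalE
import Pool.Agent.Lib_helper26.XSA.A20
import Pool.Agent.Lib_helper26.XSF.All

/-!
# XSA: from a zero-free half-plane to the asymptotic formula for almost all moduli
-/

set_option autoImplicit false

namespace Pool.Agent.FGA

open Finset Pool.Agent.FGP

theorem z03 : W03z := W03z_pr f01 f02
theorem z03b : W03bz := W03bz_pr f01 z03
theorem z19 : A19Z :=
  A19Z_pr z03b f07b f10 g15w f16 W20_pr A02_pr g04 g06 g07 g15e A16_pr A17_pr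
theorem z20 : A20Z := A20Z_pr A18aE_pr A18bE_pr z19

end Pool.Agent.FGA

namespace Pool.Agent.XS

open Finset Complex MeasureTheory Pool.Agent.Var35 Pool.Agent.Var73 Pool.Agent.HC Pool.Agent.MF
open scoped ArithmeticFunction ArithmeticFunction.Moebius

/-- the asymptotic formula with the second order term in absolute mean over the moduli `Q ≤ Y`, so
for almost all `Q`, for `X^(κ+ε) ≤ Y = o(X)` -/
def AbsMean (κ : ℝ) : Prop :=
  ∀ ε : ℝ, 0 < ε → ∀ η : ℝ, 0 < η → ∃ C : ℝ, ∀ (X : ℝ) (Y : ℕ), C ≤ X → X ^ (κ + ε) ≤ (Y : ℝ) →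
    C * (Y : ℝ) ≤ X →
    ∑ Q ∈ Icc 1 Y, |GX X Q - X * (Real.log Q - CQ Q)| ≤ η * X * Y

theorem abs_to_mean {κ : ℝ} (h : AbsMean κ) : MeanAsym κ := by
  intro ε hε η hη
  obtain ⟨C, hC⟩ := h ε hε η hη
  exact ⟨C, fun X Y h1 h2 h3 => (abs_sum_le_sum_abs _ _).trans (hC X Y h1 h2 h3)⟩

theorem xsa_step (F : ℕ → ℝ) (hF : ∀ Q, 0 ≤ F Q) (Z : ℝ) :
    ∑ Q ∈ Icc 1 ⌊2 * Z⌋₊, F Q ≤ ∑ Q ∈ Icc 1 ⌊Z⌋₊, F Q + ∑ Q ∈ FGA.IR Z, F Q := by
  have h1 : Icc 1 ⌊2 * Z⌋₊ ⊆ Icc 1 ⌊Z⌋₊ ∪ FGA.IR Z := by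
    intro Q hQ
    rw [mem_union]
    by_cases h : Z < Q
    · right
      unfold FGA.IR
      exact mem_filter.2 ⟨hQ, h⟩
    · left
      rw [mem_Icc] at hQ ⊢
      exact ⟨hQ.1, Nat.le_floor (not_lt.1 h)⟩
  refine (sum_le_sum_of_subset_of_nonneg h1 fun _ _ _ => hF _).trans ?_
  have h2 := sum_union_inter (s₁ := Icc 1 ⌊Z⌋₊) (s₂ := FGA.IR Z) (f := F)
  have h3 : 0 ≤ ∑ Q ∈ Icc 1 ⌊Z⌋₊ ∩ FGA.IR Z, F Q := sum_nonneg fun _ _ => hF _
  linarith

theorem xsa_dyad (F : ℕ → ℝ) (hF : ∀ Q, 0 ≤ F Q) {A T X η Z : ℝ} (hη : 0 ≤ η) (hX : 0 ≤ X)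
    (hT : 0 ≤ T) (hA : A ≤ Z) (hZ : 0 ≤ Z)
    (h : ∀ Y : ℝ, A ≤ Y → T * Y ≤ X → ∑ Q ∈ FGA.IR Y, F Q ≤ η * X * Y) :
    ∀ n : ℕ, T * (2 ^ n * Z) ≤ X →
      ∑ Q ∈ Icc 1 ⌊2 ^ n * Z⌋₊, F Q ≤ ∑ Q ∈ Icc 1 ⌊Z⌋₊, F Q + η * X * (2 ^ n * Z) := by
  intro n
  induction n with
  | zero =>
    intro _
    rw [pow_zero, one_mul]
    have : 0 ≤ η * X * Z := by positivity
    linarith
  | succ n ih =>
    intro h1
    have hp : (0 : ℝ) ≤ 2 ^ n * Z := by positivity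
    have h2 : T * (2 ^ n * Z) ≤ X := by
      refine le_trans ?_ h1
      rw [pow_succ]
      have : 0 ≤ T * (2 ^ n * Z) := by positivity
      linarith
    have h3 := ih h2
    have h4 := xsa_step F hF (2 ^ n * Z)
    have h5 : A ≤ 2 ^ n * Z := by
      have : (1 : ℝ) ≤ 2 ^ n := one_le_pow₀ (by norm_num)
      nlinarith
    have h6 := h _ h5 h2
    have h7 : (2 : ℝ) ^ (n + 1) * Z = 2 * (2 ^ n * Z) := by rw [pow_succ]; ring
    rw [h7]
    linarith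

/-- facts for large `X` -/
theorem xsa_X {κ ε η : ℝ} (h0 : 0 < κ) (hε : 0 < ε) (hη : 0 < η) : ∃ C : ℝ, ∀ X : ℝ, C ≤ X →
    3 ≤ X ∧ X ^ (κ + ε / 4) + 1 ≤ X ^ (κ + ε / 2) ∧
    2 * (2 * Real.log X + 7) ≤ η * X ^ (ε / 2) := by
  have e1 : ∀ᶠ X : ℝ in Filter.atTop, 3 ≤ X := Filter.eventually_ge_atTop _
  have e2 : ∀ᶠ X : ℝ in Filter.atTop, 2 ≤ X ^ (ε / 4) :=
    (tendsto_rpow_atTop (by positivity)).eventually_ge_atTop _
  have e3 : ∀ᶠ X : ℝ in Filter.atTop, ‖Real.log X‖ ≤ η / 8 * ‖X ^ (ε / 2)‖ :=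
    (isLittleO_log_rpow_atTop (by positivity)).bound (by positivity)
  have e4 : ∀ᶠ X : ℝ in Filter.atTop, 28 / η ≤ X ^ (ε / 2) :=
    (tendsto_rpow_atTop (by positivity)).eventually_ge_atTop _
  obtain ⟨C, hC⟩ := Filter.eventually_atTop.1 (e1.and (e2.and (e3.and e4)))
  refine ⟨C, fun X hX => ?_⟩
  obtain ⟨a1, a2, a3, a4⟩ := hC X hX
  have hX0 : 0 < X := by linarith
  refine ⟨a1, ?_, ?_⟩
  · have h1 : 1 ≤ X ^ (κ + ε / 4) := Real.one_le_rpow (by linarith) (by positivity)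
    have h2 : X ^ (κ + ε / 2) = X ^ (κ + ε / 4) * X ^ (ε / 4) := by
      rw [← Real.rpow_add hX0]
      congr 1
      ring
    rw [h2]
    nlinarith
  · have hp : 0 < X ^ (ε / 2) := Real.rpow_pos_of_pos hX0 _
    rw [Real.norm_eq_abs, Real.norm_eq_abs, abs_of_pos hp] at a3
    have h1 := (le_abs_self _).trans a3
    have h2 : 28 ≤ η * X ^ (ε / 2) := by
      rw [div_le_iff₀ hη] at a4
      linarith
    linarith

/-- **The asymptotic formula for almost all moduli in a zero-free half-plane.** -/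
theorem zf_to_abs : ∃ κ₀ : ℝ, κ₀ < 1 ∧ ∀ κ : ℝ, 2 / 3 ≤ κ → κ₀ ≤ κ → κ < 1 → ZF ((1 + κ) / 2) →
    AbsMean κ := by
  obtain ⟨B, hB, hmain⟩ := FGA.z20
  have hB0 : 0 < B := by linarith
  refine ⟨1 - 1 / B, by linarith [show 0 < 1 / B by positivity], fun κ h23 hκ h1 hZF => ?_⟩
  have h0 : 0 < κ := by linarith
  intro ε hε η hη
  obtain ⟨X₀, hX₀1, hX₀⟩ := hmain ((1 + κ) / 2) (by linarith) (by linarith) hZF (η / 4)
    (by positivity)
  obtain ⟨C1, hC1⟩ := zf_to_mean h23 h1 hZF (ε / 4) (by positivity) 1 one_pos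
  obtain ⟨C2, hC2⟩ := lfin (θ := (1 + κ) / 2) (by linarith) (by linarith) hZF hε (η := η / 4)
    (by positivity)
  obtain ⟨C3, hC3⟩ := xsa_X h0 hε (show 0 < η / 4 by positivity)
  refine ⟨max (max C1 C2) (max C3 X₀), fun X Y hX hY hCY => ?_⟩
  have a1 : C1 ≤ X := ((le_max_left _ _).trans (le_max_left _ _)).trans hX
  have a2 : C2 ≤ X := ((le_max_right _ _).trans (le_max_left _ _)).trans hX
  have a3 : C3 ≤ X := ((le_max_left _ _).trans (le_max_right _ _)).trans hX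
  have a4 : X₀ ≤ X := ((le_max_right _ _).trans (le_max_right _ _)).trans hX
  have hYn : (0 : ℝ) ≤ Y := Nat.cast_nonneg _
  have b1 : C1 * Y ≤ X :=
    (mul_le_mul_of_nonneg_right ((le_max_left _ _).trans (le_max_left _ _)) hYn).trans hCY
  have b4 : X₀ * Y ≤ X :=
    (mul_le_mul_of_nonneg_right ((le_max_right _ _).trans (le_max_right _ _)) hYn).trans hCY
  have b5 : (Y : ℝ) ≤ X := by nlinarith
  obtain ⟨x1, x2, x3⟩ := hC3 X a3
  have hX0 : 0 < X := by linarith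
  have hX1 : 1 ≤ X := by linarith
  set W : ℝ := X ^ (κ + ε / 2) with hW
  have hW0 : 0 < W := Real.rpow_pos_of_pos hX0 _
  have hWY : W * X ^ (ε / 2) ≤ Y := by
    refine le_trans (le_of_eq ?_) hY
    rw [hW, ← Real.rpow_add hX0]
    congr 1
    ring
  have hWY1 : W ≤ Y := by
    refine le_trans ?_ hWY
    have : 1 ≤ X ^ (ε / 2) := Real.one_le_rpow hX1 (by positivity)
    nlinarith
  obtain ⟨n, hn1, hn2⟩ := exists_nat_pow_near (x := (Y : ℝ) / W) (y := 2)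
    (by rw [le_div_iff₀ hW0]; linarith) (by norm_num)
  set Z : ℝ := Y / 2 ^ n with hZ
  have h2n : (0 : ℝ) < 2 ^ n := by positivity
  have h2n1 : (1 : ℝ) ≤ 2 ^ n := one_le_pow₀ (by norm_num)
  have hYZ : 2 ^ n * Z = Y := by
    rw [hZ]
    field_simp
  have hZW : W ≤ Z := by
    rw [hZ, le_div_iff₀ h2n]
    rw [le_div_iff₀ hW0] at hn1
    linarith
  have hZW2 : Z ≤ 2 * W := by
    rw [hZ, div_le_iff₀ h2n]
    rw [div_lt_iff₀ hW0, pow_succ] at hn2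
    linarith
  have hZ0 : 0 < Z := by linarith
  have hZY : Z ≤ Y := by
    rw [← hYZ]
    nlinarith
  set L : ℕ → ℝ := fun Q => LX X Q (X / Q * Real.log X ^ 8) with hL
  set M : ℕ → ℝ := fun Q => X * (Real.log Q - CQ Q) with hM
  have hL0 : ∀ Q, 0 ≤ L Q := fun Q => upp_LX_nonneg _ _ _
  -- the dyadic part
  have hA : X ^ (1 - 1 / B) ≤ Z := by
    refine le_trans ?_ hZW
    exact Real.rpow_le_rpow_of_exponent_le hX1 (by linarith)
  have d1 := xsa_dyad (fun Q => |GX X Q - L Q - M Q|) (fun _ => abs_nonneg _)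
    (A := X ^ (1 - 1 / B)) (T := X₀) (X := X) (η := η / 4) (Z := Z) (by positivity) hX0.le
    (by linarith) hA hZ0.le (fun Y' g1 g2 => hX₀ X Y' a4 g1 g2) n (by rw [hYZ]; exact b4)
  rw [hYZ, Nat.floor_natCast] at d1
  -- the sum of `L`
  have d2 : ∑ Q ∈ Icc 1 Y, L Q ≤ η / 4 * X * Y := by
    apply hC2 X Y a2 _ b5
    have : 2 * ((1 + κ) / 2) - 1 + ε = κ + ε := by ring
    rw [this]
    exact hY
  -- the small moduli
  set Y' : ℕ := ⌊Z⌋₊ with hY'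
  have hY'Z : (Y' : ℝ) ≤ Z := Nat.floor_le hZ0.le
  have hZY' : Z < Y' + 1 := Nat.lt_floor_add_one Z
  have hY'Y : Y' ≤ Y := by
    have : (Y' : ℝ) ≤ Y := by linarith
    exact_mod_cast this
  have d3 : ∑ Q ∈ Icc 1 Y', L Q ≤ η / 4 * X * Y :=
    (sum_le_sum_of_subset_of_nonneg (Icc_subset_Icc le_rfl hY'Y) fun _ _ _ => hL0 _).trans d2
  have d4 := hC1 X Y' a1 (by linarith) (by
    by_cases hc : 0 ≤ C1
    · refine le_trans ?_ b1
      have : (Y' : ℝ) ≤ Y := by exact_mod_cast hY'Y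
      exact mul_le_mul_of_nonneg_left this hc
    · have : C1 * (Y' : ℝ) ≤ 0 :=
        mul_nonpos_of_nonpos_of_nonneg (by linarith) (Nat.cast_nonneg _)
      linarith)
  have hMb : ∀ Q ∈ Icc 1 Y', |M Q| ≤ X * (Real.log X + 3) := by
    intro Q hQ
    rw [mem_Icc] at hQ
    have g1 := FGA.a20_CQ Q hQ.1
    have g2 : Real.log Q ≤ Real.log X := by
      apply Real.log_le_log
      · exact_mod_cast hQ.1
      · have : (Q : ℝ) ≤ Y' := by exact_mod_cast hQ.2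
        linarith
    simp only [hM]
    rw [abs_mul, abs_of_pos hX0]
    gcongr
    linarith
  have d5 : ∑ Q ∈ Icc 1 Y', |GX X Q - M Q| ≤ 1 * X * Y' + 2 * (Y' * (X * (Real.log X + 3))) := by
    have g1 : ∀ Q ∈ Icc 1 Y', |GX X Q - M Q| ≤ (GX X Q - M Q) + 2 * (X * (Real.log X + 3)) := by
      intro Q hQ
      have g2 := DA1_gx X Q
      have g3 := hMb Q hQ
      rw [abs_le] at g3 ⊢
      constructor <;> linarith [g3.1, g3.2]
    refine (sum_le_sum g1).trans ?_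
    rw [sum_add_distrib, sum_const, nsmul_eq_mul, Nat.card_Icc]
    have g4 := (le_abs_self _).trans d4
    simp only [add_tsub_cancel_right]
    linarith
  have d6 : ∑ Q ∈ Icc 1 Y', |GX X Q - M Q| ≤ η / 4 * X * Y := by
    refine d5.trans ?_
    have hlog : 0 ≤ Real.log X := Real.log_nonneg hX1
    calc 1 * X * Y' + 2 * (Y' * (X * (Real.log X + 3))) = X * Y' * (2 * Real.log X + 7) := by ring
      _ ≤ X * (2 * W) * (2 * Real.log X + 7) := by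
          have : (Y' : ℝ) ≤ 2 * W := by linarith
          gcongr
      _ = X * W * (2 * (2 * Real.log X + 7)) := by ring
      _ ≤ X * W * (η / 4 * X ^ (ε / 2)) := by gcongr
      _ = η / 4 * X * (W * X ^ (ε / 2)) := by ring
      _ ≤ η / 4 * X * Y := by gcongr
  -- together
  have d7 : ∑ Q ∈ Icc 1 Y', |GX X Q - L Q - M Q| ≤
      ∑ Q ∈ Icc 1 Y', |GX X Q - M Q| + ∑ Q ∈ Icc 1 Y', L Q := by
    rw [← sum_add_distrib]
    apply sum_le_sum
    intro Q _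
    have g1 : GX X Q - L Q - M Q = (GX X Q - M Q) + -(L Q) := by ring
    rw [g1]
    refine (abs_add_le _ _).trans ?_
    rw [abs_neg, abs_of_nonneg (hL0 Q)]
  have d8 : ∑ Q ∈ Icc 1 Y, |GX X Q - M Q| ≤
      ∑ Q ∈ Icc 1 Y, |GX X Q - L Q - M Q| + ∑ Q ∈ Icc 1 Y, L Q := by
    rw [← sum_add_distrib]
    apply sum_le_sum
    intro Q _
    have g1 : GX X Q - M Q = (GX X Q - L Q - M Q) + L Q := by ring
    rw [g1]
    refine (abs_add_le _ _).trans ?_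
    rw [abs_of_nonneg (hL0 Q)]
  have d9 : ∑ Q ∈ Icc 1 Y, |GX X Q - M Q| ≤ η * X * Y := by linarith
  exact d9

end Pool.Agent.XS
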